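import Pool.Agent.Y566.GQ.Gen

/-!
Counting zeros is a Borel operation.
-/

set_option autoImplicit false

namespace Pool.Agent.Y566.GQ

open Set Filter Topology Metric MeasureTheory Cardinal
open Pool.Agent.TH735.QM Pool.Agent.TH735.FO

theorem slice {m : ℕ} {F : (Fin m → ℂ) → ℂ → ℂ}
    (hF : AnalyticOnNhd ℂ (fun p : (Fin m → ℂ) × ℂ => F p.1 p.2) univ) (s : Fin m → ℂ) :
    AnalyticOnNhd ℂ (F s) univ := by
  intro x _
  have h1 : AnalyticAt ℂ (fun y : ℂ => (s, y)) x := analyticAt_const.prod analyticAt_id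
  exact (hF (s, x) (mem_univ _)).comp (f := fun y : ℂ => (s, y)) (x := x) h1

theorem isolated {m : ℕ} {F : (Fin m → ℂ) → ℂ → ℂ}
    (hF : AnalyticOnNhd ℂ (fun p : (Fin m → ℂ) × ℂ => F p.1 p.2) univ) {s : Fin m → ℂ} {x : ℂ}
    (hne : ∃ x', F s x' ≠ 0) :
    ∃ ε : ℝ, 0 < ε ∧ ∀ y ∈ ball x ε, F s y = 0 → y = x := by
  have hs := slice hF s
  rcases (hs x (mem_univ _)).eventually_eq_zero_or_eventually_ne_zero with h | h
  · exfalso
    obtain ⟨x', hx'⟩ := hne
    exact hx' (hs.eqOn_zero_of_preconnected_of_eventuallyEq_zero isPreconnected_univ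
      (mem_univ x) h (mem_univ x'))
  · rw [eventually_nhdsWithin_iff, Metric.eventually_nhds_iff] at h
    obtain ⟨ε, hε, h⟩ := h
    refine ⟨ε, hε, fun y hy hy0 => ?_⟩
    by_contra hyx
    exact h (mem_ball.1 hy) hyx hy0

theorem zeros_enum {m : ℕ} {F : (Fin m → ℂ) → ℂ → ℂ}
    (hF : AnalyticOnNhd ℂ (fun p : (Fin m → ℂ) × ℂ => F p.1 p.2) univ) :
    (MeasurableSet {p : (Fin m → ℂ) × ℂ | IsZero F p.1 p.2}) ∧
    ∃ (A : ℕ → Set (Fin m → ℂ)) (g : ℕ → (Fin m → ℂ) → ℂ), (∀ j, MeasurableSet (A j)) ∧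
      (∀ j, Measurable (g j)) ∧ ∀ s x, IsZero F s x ↔ ∃ j, s ∈ A j ∧ g j s = x := by
  have hc : Continuous (fun p : (Fin m → ℂ) × ℂ => F p.1 p.2) :=
    continuousOn_univ.1 hF.continuousOn
  have hZ : IsClosed {p : (Fin m → ℂ) × ℂ | F p.1 p.2 = 0} := isClosed_eq hc continuous_const
  have hO : IsOpen {s : Fin m → ℂ | ∃ x', F s x' ≠ 0} := by
    have : {s : Fin m → ℂ | ∃ x', F s x' ≠ 0} =
        Prod.fst '' {p : (Fin m → ℂ) × ℂ | F p.1 p.2 ≠ 0} := by
      ext s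
      constructor
      · rintro ⟨x, hx⟩
        exact ⟨(s, x), hx, rfl⟩
      · rintro ⟨⟨s', x⟩, hx, rfl⟩
        exact ⟨x, hx⟩
    rw [this]
    exact isOpenMap_fst _ (isOpen_ne_fun hc continuous_const)
  refine ⟨?_, ?_⟩
  · have : {p : (Fin m → ℂ) × ℂ | IsZero F p.1 p.2} =
        (Prod.fst ⁻¹' {s : Fin m → ℂ | ∃ x', F s x' ≠ 0}) ∩
          {p : (Fin m → ℂ) × ℂ | F p.1 p.2 = 0} := rfl
    rw [this]
    exact (measurable_fst hO.measurableSet).inter hZ.measurableSet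
  · obtain ⟨A, g, hA, hg, h⟩ := enum hZ hO.measurableSet (fun s hs x _ => by
      obtain ⟨ε, hε, h⟩ := isolated hF (x := x) hs
      exact ⟨ε, hε, fun y hy hys => h y hy hys⟩)
    exact ⟨A, g, hA, hg, fun s x => h s x⟩

theorem rect_split {m : ℕ} {P : Set (Fin m → ℂ) → Prop} {Q : Set (Fin 1 → ℂ) → Prop}
    (hP : ∀ E, P E → MeasurableSet E) (hQ : ∀ D, Q D → CQ 1 D ∧ MeasurableSet D)
    {R : Set ((Fin m → ℂ) × (Fin 1 → ℂ))} (hR : Rect P Q R) :
    MeasurableSet {p : (Fin m → ℂ) × ℂ | (p.1, fun _ => p.2) ∈ R} ∧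
    ∃ C0 : Set ℂ, C0.Countable ∧ ∃ E : Set (Fin m → ℂ), MeasurableSet E ∧
      ∀ s x, x ∉ C0 → ((s, fun _ => x) ∈ R ↔ s ∈ E) := by
  induction hR with
  | left E hE =>
    exact ⟨measurable_fst (hP E hE), ∅, countable_empty, E, hP E hE, fun s x _ => Iff.rfl⟩
  | coord i D hD =>
    obtain ⟨h1, h2⟩ := hQ D hD
    refine ⟨?_, ?_⟩
    · have h3 : Measurable (fun p : (Fin m → ℂ) × ℂ => (fun _ => p.2 : Fin 1 → ℂ)) :=
        measurable_pi_iff.2 fun _ => measurable_snd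
      exact h3 h2
    · rcases h1.qm with h | h
      · refine ⟨_, h, ∅, MeasurableSet.empty, fun s x hx => ?_⟩
        exact ⟨fun h' => absurd h' hx, fun h' => absurd h' (Set.notMem_empty _)⟩
      · refine ⟨_, h, univ, MeasurableSet.univ, fun s x hx => ?_⟩
        exact ⟨fun _ => mem_univ _, fun _ => not_not.1 hx⟩
  | compl R _ ih =>
    obtain ⟨h1, C0, hC0, E, hE, h2⟩ := ih
    exact ⟨h1.compl, C0, hC0, Eᶜ, hE.compl, fun s x hx => not_congr (h2 s x hx)⟩
  | union R _ ih =>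
    choose h1 C0 hC0 E hE h2 using ih
    refine ⟨?_, ⋃ j, C0 j, countable_iUnion hC0, ⋃ j, E j, MeasurableSet.iUnion hE, ?_⟩
    · have : {p : (Fin m → ℂ) × ℂ | (p.1, fun _ => p.2) ∈ ⋃ j, R j} =
          ⋃ j, {p : (Fin m → ℂ) × ℂ | (p.1, fun _ => p.2) ∈ R j} := by
        ext p
        simp
      rw [this]
      exact MeasurableSet.iUnion h1
    · intro s x hx
      simp only [mem_iUnion, not_exists] at hx ⊢
      exact exists_congr fun j => h2 j s x (hx j)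

/-- the points of a family of functions which lie in the sections of `W` -/
def Pts {T ι : Type} (W : Set (T × ℂ)) (A : ι → Set T) (g : ι → T → ℂ) (s : T) : Set ℂ :=
  {x | (∃ i, s ∈ A i ∧ g i s = x) ∧ (s, x) ∈ W}

theorem Pts_countable {T ι : Type} [Countable ι] (W : Set (T × ℂ)) (A : ι → Set T)
    (g : ι → T → ℂ) (s : T) : (Pts W A g s).Countable := by
  refine (countable_range (fun i => g i s)).mono ?_
  rintro x ⟨⟨i, -, h⟩, -⟩
  exact ⟨i, h⟩

theorem meas_nat {T ι : Type} [MeasurableSpace T] [Countable ι] {W : Set (T × ℂ)}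
    (hW : MeasurableSet W) {A : ι → Set T} (hA : ∀ j, MeasurableSet (A j)) {g : ι → T → ℂ}
    (hg : ∀ j, Measurable (g j)) (n : ℕ) :
    MeasurableSet {s | (n : Cardinal.{0}) ≤ #(Pts W A g s)} := by
  have h1 : {s | (n : Cardinal.{0}) ≤ #(Pts W A g s)} =
      ⋃ v : Fin n → ι, {s | (∀ i, s ∈ A (v i) ∧ (s, g (v i) s) ∈ W) ∧
        ∀ i i', i ≠ i' → g (v i) s ≠ g (v i') s} := by
    ext s
    simp only [Set.mem_ofPred_eq, mem_iUnion]
    constructor
    · intro h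
      rw [← Cardinal.mk_fin n] at h
      obtain ⟨f⟩ := Cardinal.le_def _ _ |>.1 h
      choose v hv1 hv2 using fun i => (f i).2.1
      refine ⟨v, fun i => ⟨hv1 i, ?_⟩, fun i i' hne h' => ?_⟩
      · rw [hv2 i]
        exact (f i).2.2
      · rw [hv2 i, hv2 i'] at h'
        exact hne (f.injective (Subtype.ext h'))
    · rintro ⟨v, hv, hd⟩
      rw [← Cardinal.mk_fin n]
      refine Cardinal.mk_le_of_injective
        (f := fun i : Fin n => (⟨g (v i) s, ⟨v i, (hv i).1, rfl⟩, (hv i).2⟩ : Pts W A g s)) ?_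
      intro i i' h
      by_contra hne
      exact hd i i' hne (congrArg Subtype.val h)
  rw [h1]
  refine MeasurableSet.iUnion fun v => ?_
  have e : {s | (∀ i, s ∈ A (v i) ∧ (s, g (v i) s) ∈ W) ∧
        ∀ i i', i ≠ i' → g (v i) s ≠ g (v i') s} =
      (⋂ i, (A (v i) ∩ (fun s => (s, g (v i) s)) ⁻¹' W)) ∩
        ⋂ i, ⋂ i', {s | i ≠ i' → g (v i) s ≠ g (v i') s} := by
    ext s
    simp
  rw [e]
  refine (MeasurableSet.iInter fun i => (hA _).inter ?_).inter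
    (MeasurableSet.iInter fun i => MeasurableSet.iInter fun i' => ?_)
  · exact (measurable_id.prodMk (hg _)) hW
  · by_cases h : i = i'
    · subst h
      simp
    · have : {s | i ≠ i' → g (v i) s ≠ g (v i') s} = {s | g (v i) s = g (v i') s}ᶜ := by
        ext s
        simp [h]
      rw [this]
      exact (measurableSet_eq_fun (hg _) (hg _)).compl

theorem meas_card {T ι : Type} [MeasurableSpace T] [Countable ι] {W : Set (T × ℂ)}
    (hW : MeasurableSet W) {A : ι → Set T} (hA : ∀ j, MeasurableSet (A j)) {g : ι → T → ℂ}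
    (hg : ∀ j, Measurable (g j)) (κ : Cardinal.{0}) :
    MeasurableSet {s | κ ≤ #(Pts W A g s)} := by
  rcases lt_trichotomy κ ℵ₀ with h | h | h
  · obtain ⟨n, rfl⟩ := Cardinal.lt_aleph0.1 h
    exact meas_nat hW hA hg n
  · subst h
    have : {s | ℵ₀ ≤ #(Pts W A g s)} = ⋂ n : ℕ, {s | (n : Cardinal.{0}) ≤ #(Pts W A g s)} := by
      ext s
      simp only [Set.mem_ofPred_eq, mem_iInter]
      exact Cardinal.aleph0_le
    rw [this]
    exact MeasurableSet.iInter fun n => meas_nat hW hA hg n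
  · have : {s | κ ≤ #(Pts W A g s)} = ∅ := by
      ext s
      simp only [Set.mem_ofPred_eq, mem_empty_iff_false, iff_false, not_le]
      exact lt_of_le_of_lt (Cardinal.le_aleph0_iff_set_countable.2 (Pts_countable W A g s)) h
    rw [this]
    exact MeasurableSet.empty

theorem meas_guard {m : ℕ} {F : (Fin m → ℂ) → ℂ → ℂ}
    (hF : AnalyticOnNhd ℂ (fun p : (Fin m → ℂ) × ℂ => F p.1 p.2) univ)
    {X : Set (Fin (m + 1) → ℂ)} (hX : MeasurableSet X)
    {P : Set (Fin m → ℂ) → Prop} {Q : Set (Fin 1 → ℂ) → Prop}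
    (hP : ∀ E, P E → MeasurableSet E) (hQ : ∀ D, Q D → CQ 1 D ∧ MeasurableSet D)
    {R : Set ((Fin m → ℂ) × (Fin 1 → ℂ))} (hR : Rect P Q R) (κ : Cardinal.{0}) :
    MeasurableSet {s | κ ≤ #({x : ℂ | (IsZero F s x ∧
      (Fin.snoc (α := fun _ => ℂ) s x : Fin (m + 1) → ℂ) ∈ X) ∨
      (¬ IsZero F s x ∧ (s, fun _ => x) ∈ R)} : Set ℂ)} := by
  obtain ⟨hZm, A, g, hA, hg, hAg⟩ := zeros_enum hF
  obtain ⟨hRm, C0, hC0, E, hE, hRE⟩ := rect_split hP hQ hR
  obtain ⟨c, hc⟩ := (Set.countable_iff_exists_subset_range.1 hC0)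
  set W : Set ((Fin m → ℂ) × ℂ) := {p | (IsZero F p.1 p.2 ∧
      (Fin.snoc (α := fun _ => ℂ) p.1 p.2 : Fin (m + 1) → ℂ) ∈ X) ∨
      (¬ IsZero F p.1 p.2 ∧ (p.1, fun _ => p.2) ∈ R)} with hWdef
  have hW : MeasurableSet W :=
    (hZm.inter (measurable_snoc hX)).union (hZm.compl.inter hRm)
  let A' : ℕ ⊕ ℕ → Set (Fin m → ℂ) := Sum.elim A (fun _ => univ)
  let g' : ℕ ⊕ ℕ → (Fin m → ℂ) → ℂ := Sum.elim g (fun j _ => c j)
  have hA' : ∀ i, MeasurableSet (A' i) := by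
    rintro (j | j)
    · exact hA j
    · exact MeasurableSet.univ
  have hg' : ∀ i, Measurable (g' i) := by
    rintro (j | j)
    · exact hg j
    · exact measurable_const
  have hS1 : ∀ s, s ∉ E → {x : ℂ | (IsZero F s x ∧
      (Fin.snoc (α := fun _ => ℂ) s x : Fin (m + 1) → ℂ) ∈ X) ∨
      (¬ IsZero F s x ∧ (s, fun _ => x) ∈ R)} = Pts W A' g' s := by
    intro s hs
    ext x
    constructor
    · intro h
      refine ⟨?_, h⟩
      rcases h with h | h
      · obtain ⟨j, h1, h2⟩ := (hAg s x).1 h.1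
        exact ⟨Sum.inl j, h1, h2⟩
      · have hx : x ∈ C0 := by
          by_contra hx
          exact hs ((hRE s x hx).1 h.2)
        obtain ⟨j, hj⟩ := hc hx
        exact ⟨Sum.inr j, mem_univ _, hj⟩
    · rintro ⟨-, h⟩
      exact h
  have hS2 : ∀ s, s ∈ E → #({x : ℂ | (IsZero F s x ∧
      (Fin.snoc (α := fun _ => ℂ) s x : Fin (m + 1) → ℂ) ∈ X) ∨
      (¬ IsZero F s x ∧ (s, fun _ => x) ∈ R)} : Set ℂ) = #ℂ := by
    intro s hs
    have h0 : {x | IsZero F s x}.Countable := by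
      refine (countable_range (fun j => g j s)).mono ?_
      intro x hx
      obtain ⟨j, -, h2⟩ := (hAg s x).1 hx
      exact ⟨j, h2⟩
    have h1 : ({x : ℂ | (IsZero F s x ∧
        (Fin.snoc (α := fun _ => ℂ) s x : Fin (m + 1) → ℂ) ∈ X) ∨
        (¬ IsZero F s x ∧ (s, fun _ => x) ∈ R)} : Set ℂ)ᶜ.Countable := by
      refine (h0.union hC0).mono ?_
      intro x hx
      by_cases h2 : IsZero F s x
      · exact Or.inl h2
      · right
        by_contra h3
        exact hx (Or.inr ⟨h2, (hRE s x h3).2 hs⟩)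
    have h2 : #(({x : ℂ | (IsZero F s x ∧
        (Fin.snoc (α := fun _ => ℂ) s x : Fin (m + 1) → ℂ) ∈ X) ∨
        (¬ IsZero F s x ∧ (s, fun _ => x) ∈ R)} : Set ℂ)ᶜ : Set ℂ) < #ℂ := by
      refine lt_of_le_of_lt (Cardinal.le_aleph0_iff_set_countable.2 h1) ?_
      rw [Cardinal.mk_complex]
      exact Cardinal.aleph0_lt_continuum
    have h3 := Cardinal.mk_compl_of_infinite _ h2
    rwa [compl_compl] at h3
  have hfin : {s | κ ≤ #({x : ℂ | (IsZero F s x ∧
      (Fin.snoc (α := fun _ => ℂ) s x : Fin (m + 1) → ℂ) ∈ X) ∨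
      (¬ IsZero F s x ∧ (s, fun _ => x) ∈ R)} : Set ℂ)} =
      (E ∩ {_s | κ ≤ #ℂ}) ∪ (Eᶜ ∩ {s | κ ≤ #(Pts W A' g' s)}) := by
    ext s
    by_cases hs : s ∈ E
    · simp only [Set.mem_ofPred_eq, Set.mem_union, Set.mem_inter_iff, Set.mem_compl_iff, hs,
        not_true_eq_false, false_and, or_false, true_and]
      rw [hS2 s hs]
    · simp only [Set.mem_ofPred_eq, Set.mem_union, Set.mem_inter_iff, Set.mem_compl_iff, hs,
        not_false_eq_true, false_and, false_or, true_and]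
      rw [hS1 s hs]
  rw [hfin]
  exact (hE.inter (MeasurableSet.const _)).union (hE.compl.inter (meas_card hW hA' hg' κ))

end Pool.Agent.Y566.GQ
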