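import Mathlib

/-!
Borel enumeration of the isolated points of the sections of a closed set.
-/

set_option autoImplicit false

namespace Pool.Agent.Y566.GQ

open Set Filter Topology Metric MeasureTheory

/-- the parameters `s` for which the section of `Z` meets `C` -/
def H {T : Type} (Z : Set (T × ℂ)) (C : Set ℂ) : Set T := {s | ∃ x ∈ C, (s, x) ∈ Z}

theorem isClosed_H {T : Type} [TopologicalSpace T] {Z : Set (T × ℂ)} (hZ : IsClosed Z)
    {C : Set ℂ} (hC : IsCompact C) : IsClosed (H Z C) := by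
  have h1 : H Z C = Prod.fst '' (Z ∩ (univ ×ˢ C)) := by
    ext s
    constructor
    · rintro ⟨x, hx, hs⟩
      exact ⟨(s, x), ⟨hs, mem_univ _, hx⟩, rfl⟩
    · rintro ⟨⟨s', x⟩, ⟨hs, -, hx⟩, rfl⟩
      exact ⟨x, hx, hs⟩
  have : CompactSpace C := isCompact_iff_compactSpace.1 hC
  have h2 : H Z C = Prod.fst '' ((fun q : T × C => (q.1, (q.2 : ℂ))) ⁻¹' Z) := by
    ext s
    constructor
    · rintro ⟨x, hx, hs⟩
      exact ⟨(s, ⟨x, hx⟩), hs, rfl⟩
    · rintro ⟨⟨s', x⟩, hs, rfl⟩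
      exact ⟨x, x.2, hs⟩
  rw [h2]
  exact isClosedMap_fst_of_compactSpace _ (hZ.preimage (by fun_prop))

/-- the countable family of closed discs -/
noncomputable def K (j : ℕ × ℕ) : Set ℂ := closedBall (TopologicalSpace.denseSeq ℂ j.1) (1 / (j.2 + 1))

theorem isCompact_K (j : ℕ × ℕ) : IsCompact (K j) := isCompact_closedBall _ _

theorem exists_K (x : ℂ) {ε : ℝ} (hε : 0 < ε) : ∃ j, x ∈ K j ∧ K j ⊆ ball x ε := by
  obtain ⟨k, hk⟩ := exists_nat_one_div_lt (show (0 : ℝ) < ε / 2 by positivity)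
  have hk0 : (0 : ℝ) < 1 / ((k : ℝ) + 1) := by positivity
  obtain ⟨i, hi⟩ := (TopologicalSpace.denseRange_denseSeq ℂ).exists_dist_lt x hk0
  refine ⟨(i, k), ?_, ?_⟩
  · rw [K, mem_closedBall]
    exact hi.le
  · intro y hy
    rw [K, mem_closedBall] at hy
    rw [mem_ball]
    have h1 := dist_triangle y (TopologicalSpace.denseSeq ℂ i) x
    have h2 : dist (TopologicalSpace.denseSeq ℂ i) x = dist x (TopologicalSpace.denseSeq ℂ i) :=
      dist_comm _ _
    simp only at hy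
    linarith

/-- the parameters for which the section has exactly one point in `C` -/
def One {T : Type} (Z : Set (T × ℂ)) (C : Set ℂ) : Set T :=
  H Z C \ ⋃ q : (ℕ × ℕ) × (ℕ × ℕ), {s | Disjoint (K q.1) (K q.2) ∧ s ∈ H Z (C ∩ K q.1) ∧
    s ∈ H Z (C ∩ K q.2)}

theorem one_iff {T : Type} {Z : Set (T × ℂ)} {C : Set ℂ} {s : T} :
    s ∈ One Z C ↔ ∃ x ∈ C, (s, x) ∈ Z ∧ ∀ y ∈ C, (s, y) ∈ Z → y = x := by
  constructor
  · rintro ⟨⟨x, hx, hs⟩, h⟩
    refine ⟨x, hx, hs, fun y hy hys => ?_⟩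
    by_contra hne
    apply h
    have hd : 0 < dist y x := dist_pos.2 hne
    obtain ⟨i, hi1, hi2⟩ := exists_K x (show 0 < dist y x / 2 by positivity)
    obtain ⟨j, hj1, hj2⟩ := exists_K y (show 0 < dist y x / 2 by positivity)
    refine mem_iUnion.2 ⟨(i, j), ?_, ⟨x, ⟨hx, hi1⟩, hs⟩, ⟨y, ⟨hy, hj1⟩, hys⟩⟩
    refine Set.disjoint_left.2 fun z hz1 hz2 => ?_
    have h1 := mem_ball.1 (hi2 hz1)
    have h2 := mem_ball.1 (hj2 hz2)
    have h3 := dist_triangle_left y x z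
    linarith
  · rintro ⟨x, hx, hs, huniq⟩
    refine ⟨⟨x, hx, hs⟩, fun h => ?_⟩
    obtain ⟨q, hq, ⟨y, ⟨hy, hyq⟩, hys⟩, ⟨z, ⟨hz, hzq⟩, hzs⟩⟩ := mem_iUnion.1 h
    rw [huniq y hy hys] at hyq
    rw [huniq z hz hzs] at hzq
    exact Set.disjoint_left.1 hq hyq hzq

theorem measurableSet_One {T : Type} [TopologicalSpace T] [MeasurableSpace T]
    [OpensMeasurableSpace T] {Z : Set (T × ℂ)} (hZ : IsClosed Z) {C : Set ℂ} (hC : IsCompact C) :
    MeasurableSet (One Z C) := by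
  refine (isClosed_H hZ hC).measurableSet.diff (MeasurableSet.iUnion fun q => ?_)
  by_cases hq : Disjoint (K q.1) (K q.2)
  · have : {s | Disjoint (K q.1) (K q.2) ∧ s ∈ H Z (C ∩ K q.1) ∧ s ∈ H Z (C ∩ K q.2)} =
        H Z (C ∩ K q.1) ∩ H Z (C ∩ K q.2) := by
      ext s
      simp [hq]
    rw [this]
    exact (isClosed_H hZ (hC.inter (isCompact_K _))).measurableSet.inter
      (isClosed_H hZ (hC.inter (isCompact_K _))).measurableSet
  · have : {s | Disjoint (K q.1) (K q.2) ∧ s ∈ H Z (C ∩ K q.1) ∧ s ∈ H Z (C ∩ K q.2)} = ∅ := by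
      ext s
      simp [hq]
    rw [this]
    exact MeasurableSet.empty

open Classical in
/-- the point -/
noncomputable def pt {T : Type} (Z : Set (T × ℂ)) (C : Set ℂ) (s : T) : ℂ :=
  if h : s ∈ One Z C then (one_iff.1 h).choose else 0

theorem pt_spec {T : Type} {Z : Set (T × ℂ)} {C : Set ℂ} {s : T} (h : s ∈ One Z C) :
    pt Z C s ∈ C ∧ (s, pt Z C s) ∈ Z ∧ ∀ y ∈ C, (s, y) ∈ Z → y = pt Z C s := by
  have e : pt Z C s = (one_iff.1 h).choose := dif_pos h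
  rw [e]
  exact (one_iff.1 h).choose_spec

theorem measurable_pt {T : Type} [TopologicalSpace T] [MeasurableSpace T]
    [OpensMeasurableSpace T] {Z : Set (T × ℂ)} (hZ : IsClosed Z) {C : Set ℂ} (hC : IsCompact C) :
    Measurable (pt Z C) := by
  refine measurable_of_isClosed fun D hD => ?_
  have h1 := measurableSet_One hZ hC
  have h2 : MeasurableSet (H Z (C ∩ D)) := (isClosed_H hZ (hC.inter_right hD)).measurableSet
  have h3 : pt Z C ⁻¹' D = (One Z C ∩ H Z (C ∩ D)) ∪ ((One Z C)ᶜ ∩ {_s | (0 : ℂ) ∈ D}) := by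
    ext s
    by_cases hs : s ∈ One Z C
    · obtain ⟨p1, p2, p3⟩ := pt_spec hs
      constructor
      · intro h
        exact Or.inl ⟨hs, pt Z C s, ⟨p1, h⟩, p2⟩
      · rintro (⟨-, y, ⟨hy, hyD⟩, hys⟩ | ⟨h, -⟩)
        · show pt Z C s ∈ D
          rw [← p3 y hy hys]
          exact hyD
        · exact absurd hs h
    · have e : pt Z C s = 0 := dif_neg hs
      constructor
      · intro h
        refine Or.inr ⟨hs, ?_⟩
        have h' : pt Z C s ∈ D := h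
        rwa [e] at h'
      · rintro (⟨h, -⟩ | ⟨-, h⟩)
        · exact absurd h hs
        · show pt Z C s ∈ D
          rw [e]
          exact h
  rw [h3]
  exact (h1.inter h2).union (h1.compl.inter (MeasurableSet.const _))

/-- Borel enumeration of the isolated zeros. -/
theorem enum {T : Type} [TopologicalSpace T] [MeasurableSpace T] [OpensMeasurableSpace T]
    {Z : Set (T × ℂ)} (hZ : IsClosed Z) {O : Set T} (hO : MeasurableSet O)
    (hiso : ∀ s ∈ O, ∀ x, (s, x) ∈ Z → ∃ ε : ℝ, 0 < ε ∧ ∀ y ∈ ball x ε, (s, y) ∈ Z → y = x) :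
    ∃ (A : ℕ → Set T) (g : ℕ → T → ℂ), (∀ j, MeasurableSet (A j)) ∧ (∀ j, Measurable (g j)) ∧
      ∀ s x, (s ∈ O ∧ (s, x) ∈ Z) ↔ ∃ j, s ∈ A j ∧ g j s = x := by
  obtain ⟨e, he⟩ := exists_surjective_nat (ℕ × ℕ)
  refine ⟨fun j => O ∩ One Z (K (e j)), fun j => pt Z (K (e j)),
    fun j => hO.inter (measurableSet_One hZ (isCompact_K _)),
    fun j => measurable_pt hZ (isCompact_K _), fun s x => ?_⟩
  constructor
  · rintro ⟨hs, hx⟩
    obtain ⟨ε, hε, h⟩ := hiso s hs x hx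
    obtain ⟨i, hi1, hi2⟩ := exists_K x hε
    obtain ⟨j, rfl⟩ := he i
    have h1 : s ∈ One Z (K (e j)) :=
      one_iff.2 ⟨x, hi1, hx, fun y hy hys => h y (hi2 hy) hys⟩
    exact ⟨j, ⟨hs, h1⟩, ((pt_spec h1).2.2 x hi1 hx).symm⟩
  · rintro ⟨j, ⟨hs, h1⟩, rfl⟩
    exact ⟨hs, (pt_spec h1).2.1⟩

end Pool.Agent.Y566.GQ
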