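import Pool.Agent.Y566.GQ.One

/-!
One equation in several unknowns.
-/

set_option autoImplicit false

namespace Pool.Agent.Y566.GQ

open Set Filter Topology Metric MeasureTheory Cardinal
open Pool.Agent.TH735.QM Pool.Agent.TH735.FO

theorem isClosed_proj {T Y : Type} [TopologicalSpace T] [TopologicalSpace Y] {Z : Set (T × Y)}
    (hZ : IsClosed Z) {C : Set Y} (hC : IsCompact C) : IsClosed {s | ∃ x ∈ C, (s, x) ∈ Z} := by
  have : CompactSpace C := isCompact_iff_compactSpace.1 hC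
  have h2 : {s | ∃ x ∈ C, (s, x) ∈ Z} =
      Prod.fst '' ((fun q : T × C => (q.1, (q.2 : Y))) ⁻¹' Z) := by
    ext s
    constructor
    · rintro ⟨x, hx, hs⟩
      exact ⟨(s, ⟨x, hx⟩), hs, rfl⟩
    · rintro ⟨⟨s', x⟩, hs, rfl⟩
      exact ⟨x, x.2, hs⟩
  rw [h2]
  exact isClosedMap_fst_of_compactSpace _ (hZ.preimage (by fun_prop))

theorem Adm_continuous {m n : ℕ} {F : (Fin m → ℂ) → (Fin n → ℂ) → ℂ} (hF : Adm m n F) :
    Continuous (fun p : (Fin m → ℂ) × (Fin n → ℂ) => F p.1 p.2) := by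
  induction hF with
  | left f hf => exact (continuousOn_univ.1 hf.continuousOn).comp continuous_fst
  | right g hg => exact (continuousOn_univ.1 hg.continuousOn).comp continuous_snd
  | exp h hh => exact Complex.continuous_exp.comp (continuousOn_univ.1 hh.continuousOn)
  | add F G _ _ ih1 ih2 => exact ih1.add ih2
  | mul F G _ _ ih1 ih2 => exact ih1.mul ih2

theorem meas_ex {m n : ℕ} {F : (Fin m → ℂ) → (Fin n → ℂ) → ℂ} (hF : Adm m n F)
    {N : (Fin n → ℂ) → ℂ} (hN : AnalyticOnNhd ℂ N univ) :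
    MeasurableSet {s | ∃ x, N x ≠ 0 ∧ F s x = 0} := by
  have hNc : Continuous N := continuousOn_univ.1 hN.continuousOn
  have hZ : IsClosed {p : (Fin m → ℂ) × (Fin n → ℂ) | F p.1 p.2 = 0} :=
    isClosed_eq (Adm_continuous hF) continuous_const
  have h1 : {s | ∃ x, N x ≠ 0 ∧ F s x = 0} = ⋃ q : ℕ × ℕ,
      {s | ∃ x ∈ closedBall (0 : Fin n → ℂ) q.1 ∩ {x | 1 / ((q.2 : ℝ) + 1) ≤ ‖N x‖},
        (s, x) ∈ {p : (Fin m → ℂ) × (Fin n → ℂ) | F p.1 p.2 = 0}} := by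
    ext s
    simp only [Set.mem_ofPred_eq, mem_iUnion]
    constructor
    · rintro ⟨x, hx, hs⟩
      obtain ⟨k, hk⟩ := exists_nat_ge ‖x‖
      obtain ⟨l, hl⟩ := exists_nat_one_div_lt (norm_pos_iff.2 hx)
      refine ⟨(k, l), x, ⟨?_, hl.le⟩, hs⟩
      rw [mem_closedBall, dist_zero_right]
      exact hk
    · rintro ⟨⟨k, l⟩, x, ⟨-, hx⟩, hs⟩
      refine ⟨x, ?_, hs⟩
      have h0 : (0 : ℝ) < 1 / ((l : ℝ) + 1) := by positivity
      exact norm_pos_iff.1 (lt_of_lt_of_le h0 hx)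
  rw [h1]
  refine MeasurableSet.iUnion fun q => (isClosed_proj hZ ?_).measurableSet
  exact (isCompact_closedBall _ _).inter_right (isClosed_le continuous_const hNc.norm)

theorem CQ_ex {m n : ℕ} {F : (Fin m → ℂ) → (Fin n → ℂ) → ℂ} (hF : Adm m n F)
    {N : (Fin n → ℂ) → ℂ} (hN : AnalyticOnNhd ℂ N univ) :
    CQ m {s | ∃ x, N x ≠ 0 ∧ F s x = 0} := by
  have huniv : CQ m (univ : Set (Fin m → ℂ)) := by
    intro U _ _ γ _
    right
    simp
  have h := ex_QmOn hF (AffineMap.id ℂ (Fin n → ℂ)) (fun _ => N) (fun _ => hN)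
    (P := CQ m) (Q := CQ 1) (fun E hE => hE) (fun D hD => hD)
    (R := {p | p.1 ∈ (univ : Set (Fin m → ℂ))}) (Rect.left univ huniv)
  have e : {s | ∃ x, N x ≠ 0 ∧ F s x = 0} = {s | ∃ x, F s x = 0 ∧ (∀ _j : ℕ, N x ≠ 0) ∧
      (s, (AffineMap.id ℂ (Fin n → ℂ)) x) ∈ {p : (Fin m → ℂ) × (Fin n → ℂ) |
        p.1 ∈ (univ : Set (Fin m → ℂ))}} := by
    ext s
    constructor
    · rintro ⟨x, h1, h2⟩
      exact ⟨x, h2, fun _ => h1, mem_univ _⟩
    · rintro ⟨x, h2, h1, -⟩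
      exact ⟨x, h1 0, h2⟩
  rw [e]
  exact h

end Pool.Agent.Y566.GQ
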