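import Pool.Agent.TH735.FO.Rule
import Pool.Agent.Y566.GQ.Enum

/-!
The quantifier for uncountably many numbers.
-/

set_option autoImplicit false

namespace Pool.Agent.Y566.GQ

open Set Filter Topology Metric MeasureTheory
open Pool.Agent.TH735.QM Pool.Agent.TH735.FO

/-- atomless finite measure on an uncountable Borel set of complex numbers -/
theorem exists_atomless {A : Set ℂ} (hA : MeasurableSet A) (hunc : ¬ A.Countable) :
    ∃ μ : Measure ℂ, IsFiniteMeasure μ ∧ μ Aᶜ = 0 ∧ μ univ ≠ 0 ∧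
      ∀ S : Set ℂ, S.Countable → μ S = 0 := by
  have hst : StandardBorelSpace A := hA.standardBorel
  have h1 : ¬ Countable A := fun h => hunc (Set.countable_coe_iff.1 h)
  have h2 : ¬ Countable ℝ := by
    rw [← Cardinal.mk_le_aleph0_iff, not_le, Cardinal.mk_real]
    exact Cardinal.aleph0_lt_continuum
  let e : ℝ ≃ᵐ A := PolishSpace.measurableEquivOfNotCountable h2 h1
  have hm : Measurable (fun r : ℝ => ((e r : A) : ℂ)) := measurable_subtype_coe.comp e.measurable
  refine ⟨(volume.restrict (Icc (0 : ℝ) 1)).map (fun r : ℝ => ((e r : A) : ℂ)), ?_, ?_, ?_, ?_⟩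
  · infer_instance
  · rw [Measure.map_apply hm hA.compl]
    have : (fun r : ℝ => ((e r : A) : ℂ)) ⁻¹' Aᶜ = ∅ := by
      ext r
      simp
    rw [this]
    simp
  · rw [Measure.map_apply hm MeasurableSet.univ]
    simp
  · intro S hS
    rw [Measure.map_apply hm hS.measurableSet]
    apply Set.Countable.measure_zero
    apply hS.preimage_of_injOn
    intro r _ r' _ h
    exact e.injective (Subtype.ext h)

theorem analytic_snoc {m : ℕ} {γ : ℂ → (Fin m → ℂ)} {x : ℂ → ℂ} {U : Set ℂ}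
    (hγ : AnalyticOnNhd ℂ γ U) (hx : AnalyticOnNhd ℂ x U) :
    AnalyticOnNhd ℂ (fun t => (Fin.snoc (α := fun _ => ℂ) (γ t) (x t) : Fin (m + 1) → ℂ)) U := by
  intro t ht
  refine analyticAt_pi_iff.2 fun i => ?_
  refine Fin.lastCases ?_ (fun j => ?_) i
  · simp only [Fin.snoc_last]
    exact hx t ht
  · simp only [Fin.snoc_castSucc]
    exact (analyticAt_pi_iff.1 (hγ t ht)) j

theorem measurable_snoc {m : ℕ} : Measurable (fun p : (Fin m → ℂ) × ℂ =>
    (Fin.snoc (α := fun _ => ℂ) p.1 p.2 : Fin (m + 1) → ℂ)) := by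
  refine measurable_pi_iff.2 fun i => ?_
  refine Fin.lastCases ?_ (fun j => ?_) i
  · simp only [Fin.snoc_last]
    exact measurable_snd
  · simp only [Fin.snoc_castSucc]
    exact (measurable_pi_apply j).comp measurable_fst

/-- the section -/
def Sec {m : ℕ} (X : Set (Fin (m + 1) → ℂ)) (s : Fin m → ℂ) : Set ℂ :=
  {x | (Fin.snoc (α := fun _ => ℂ) s x : Fin (m + 1) → ℂ) ∈ X}

theorem Sec_qm {m : ℕ} {X : Set (Fin (m + 1) → ℂ)} (hX : CQ (m + 1) X) (s : Fin m → ℂ) :
    (Sec X s).Countable ∨ (Sec X s)ᶜ.Countable := by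
  have h := hX univ isOpen_univ isPreconnected_univ
    (fun x => (Fin.snoc (α := fun _ => ℂ) s x : Fin (m + 1) → ℂ))
    (analytic_snoc analyticOnNhd_const analyticOnNhd_id)
  exact QmOn_univ_iff.1 h

theorem unc_iff {m : ℕ} {X : Set (Fin (m + 1) → ℂ)} (hX : CQ (m + 1) X) (s : Fin m → ℂ) :
    ¬ (Sec X s).Countable ↔ (volume : Measure ℂ) (Sec X s) ≠ 0 := by
  constructor
  · intro h h0
    rcases Sec_qm hX s with h1 | h1
    · exact h h1
    · have h2 : (volume : Measure ℂ) (Sec X s)ᶜ = 0 := h1.measure_zero _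
      have h3 : (volume : Measure ℂ) univ = 0 := by
        rw [← union_compl_self (Sec X s)]
        exact measure_union_null h0 h2
      have h4 : (volume : Measure ℂ) univ ≠ 0 := by
        simp
      exact h4 h3
  · intro h h0
    exact h (h0.measure_zero _)

theorem meas_unc {m : ℕ} {X : Set (Fin (m + 1) → ℂ)} (hX : CQ (m + 1) X)
    (hXm : MeasurableSet X) : MeasurableSet {s | ¬ (Sec X s).Countable} := by
  have hW : MeasurableSet {p : (Fin m → ℂ) × ℂ |
      (Fin.snoc (α := fun _ => ℂ) p.1 p.2 : Fin (m + 1) → ℂ) ∈ X} := measurable_snoc hXm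
  have h1 : Measurable (fun s : Fin m → ℂ => (volume : Measure ℂ) (Sec X s)) :=
    measurable_measure_prodMk_left hW
  have h2 : {s | ¬ (Sec X s).Countable} =
      (fun s : Fin m → ℂ => (volume : Measure ℂ) (Sec X s)) ⁻¹' {0}ᶜ := by
    ext s
    exact unc_iff hX s
  rw [h2]
  exact h1 (measurableSet_singleton 0).compl

theorem swap_null {μ : Measure ℂ} [IsFiniteMeasure μ] {Y : Set (ℂ × ℂ)} (hY : MeasurableSet Y)
    (h : ∀ᵐ t ∂μ, (volume : Measure ℂ) {x | (t, x) ∈ Y} = 0) :
    ∀ᵐ x ∂(volume : Measure ℂ), μ {t | (t, x) ∈ Y} = 0 := by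
  have h1 : (μ.prod (volume : Measure ℂ)) Y = 0 := (Measure.measure_prod_null hY).2 h
  have h2 : ((volume : Measure ℂ).prod μ) (Prod.swap ⁻¹' Y) = 0 := by
    rw [← Measure.prod_swap (μ := μ), Measure.map_apply measurable_swap (measurable_swap hY)]
    exact h1
  exact Measure.measure_ae_null_of_prod_null h2

theorem CQ_unc {m : ℕ} {X : Set (Fin (m + 1) → ℂ)} (hX : CQ (m + 1) X)
    (hXm : MeasurableSet X) : CQ m {s | ¬ (Sec X s).Countable} := by
  intro U hU hUc γ hγ
  classical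
  by_contra hcon
  unfold QmOn at hcon
  push Not at hcon
  obtain ⟨hc1, hc0⟩ := hcon
  have hγc : ContinuousOn γ U := hγ.continuousOn
  have hγm : Measurable (U.piecewise γ (fun _ => 0)) :=
    hγc.measurable_piecewise continuousOn_const hU.measurableSet
  set γ' := U.piecewise γ (fun _ => 0) with hγ'
  have heq : ∀ t ∈ U, γ' t = γ t := fun t ht => Set.piecewise_eq_of_mem _ _ _ ht
  have hG := meas_unc hX hXm
  have hA1 : U ∩ γ ⁻¹' {s | ¬ (Sec X s).Countable} = U ∩ γ' ⁻¹' {s | ¬ (Sec X s).Countable} := by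
    ext t
    constructor
    · rintro ⟨ht, h⟩
      refine ⟨ht, ?_⟩
      show ¬ (Sec X (γ' t)).Countable
      rw [heq t ht]
      exact h
    · rintro ⟨ht, h⟩
      refine ⟨ht, ?_⟩
      have h' : ¬ (Sec X (γ' t)).Countable := h
      rw [heq t ht] at h'
      exact h'
  have hA1m : MeasurableSet (U ∩ γ ⁻¹' {s | ¬ (Sec X s).Countable}) := by
    rw [hA1]
    exact hU.measurableSet.inter (hγm hG)
  have hA0m : MeasurableSet (U \ γ ⁻¹' {s | ¬ (Sec X s).Countable}) := by
    have : U \ γ ⁻¹' {s | ¬ (Sec X s).Countable} =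
        U \ (U ∩ γ ⁻¹' {s | ¬ (Sec X s).Countable}) := by
      ext t
      simp only [Set.mem_sdiff, Set.mem_inter_iff]
      tauto
    rw [this]
    exact hU.measurableSet.diff hA1m
  obtain ⟨μ1, hf1, hs1, hu1, hc1'⟩ := exists_atomless hA1m hc1
  obtain ⟨μ0, hf0, hs0, hu0, hc0'⟩ := exists_atomless hA0m hc0
  have hY : MeasurableSet {p : ℂ × ℂ | p.2 ∈ Sec X (γ' p.1)} := by
    have h1 : Measurable (fun p : ℂ × ℂ => (γ' p.1, p.2)) :=
      (hγm.comp measurable_fst).prodMk measurable_snd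
    exact (measurable_snoc.comp h1) hXm
  have a1 := swap_null (μ := μ1) hY.compl (by
    have h1 : ∀ᵐ t ∂μ1, t ∈ U ∩ γ ⁻¹' {s | ¬ (Sec X s).Countable} := hs1
    filter_upwards [h1] with t ht
    rcases Sec_qm hX (γ t) with h | h
    · exact absurd h ht.2
    · have e : {x | (t, x) ∈ {p : ℂ × ℂ | p.2 ∈ Sec X (γ' p.1)}ᶜ} = (Sec X (γ t))ᶜ := by
        ext x
        simp only [Set.mem_compl_iff, Set.mem_ofPred_eq]
        rw [heq t ht.1]
      rw [e]
      exact h.measure_zero _)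
  have a0 := swap_null (μ := μ0) hY (by
    have h1 : ∀ᵐ t ∂μ0, t ∈ U \ γ ⁻¹' {s | ¬ (Sec X s).Countable} := hs0
    filter_upwards [h1] with t ht
    have h : (Sec X (γ t)).Countable := by
      by_contra h
      exact ht.2 h
    show (volume : Measure ℂ) (Sec X (γ' t)) = 0
    rw [heq t ht.1]
    exact h.measure_zero _)
  obtain ⟨x, hx1, hx0⟩ := (a1.and a0).exists
  rcases hX U hU hUc (fun t => (Fin.snoc (α := fun _ => ℂ) (γ t) x : Fin (m + 1) → ℂ))
    (analytic_snoc hγ analyticOnNhd_const) with h | h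
  · apply hu1
    have h3 := hc1' _ h
    refine measure_mono_null ?_ (measure_union_null hs1 (measure_union_null hx1 h3))
    intro t _
    by_cases ht : t ∈ U ∩ γ ⁻¹' {s | ¬ (Sec X s).Countable}
    · by_cases ht2 : x ∈ Sec X (γ t)
      · exact Or.inr (Or.inr ⟨ht.1, ht2⟩)
      · refine Or.inr (Or.inl ?_)
        show ¬ x ∈ Sec X (γ' t)
        rw [heq t ht.1]
        exact ht2
    · exact Or.inl ht
  · apply hu0
    have h3 := hc0' _ h
    refine measure_mono_null ?_ (measure_union_null hs0 (measure_union_null hx0 h3))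
    intro t _
    by_cases ht : t ∈ U \ γ ⁻¹' {s | ¬ (Sec X s).Countable}
    · by_cases ht2 : x ∈ Sec X (γ t)
      · refine Or.inr (Or.inl ?_)
        show x ∈ Sec X (γ' t)
        rw [heq t ht.1]
        exact ht2
      · exact Or.inr (Or.inr ⟨ht.1, ht2⟩)
    · exact Or.inl ht

end Pool.Agent.Y566.GQ
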