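import Pool.Agent.Y566.GQ.Cnt

/-!
Measure quantifiers and quantifiers for uncountable cardinals.
-/

set_option autoImplicit false

namespace Pool.Agent.Y566.GQ

open Set Filter Topology Metric MeasureTheory Cardinal
open scoped ENNReal
open Pool.Agent.TH735.QM Pool.Agent.TH735.FO

theorem null_of_noatom {μ : Measure ℂ} {C : Set ℂ} (hC : C.Countable) (h : ∀ x ∈ C, μ {x} = 0) :
    μ C = 0 := by
  have h1 := (measure_biUnion_null_iff hC (s := fun x => ({x} : Set ℂ)) (μ := μ)).2 h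
  rwa [biUnion_of_singleton] at h1

theorem measure_le {μ : Measure ℂ} {S S' : Set ℂ} (hd : (S \ S').Countable)
    (h : ∀ x, μ {x} ≠ 0 → x ∈ S → x ∈ S') : μ S ≤ μ S' := by
  have h1 : μ (S \ S') = 0 := null_of_noatom hd (by
    intro x hx
    by_contra h0
    exact hx.2 (h x h0 hx.1))
  calc μ S ≤ μ (S' ∪ (S \ S')) := measure_mono (by
        intro x hx
        by_cases hx' : x ∈ S'
        · exact Or.inl hx'
        · exact Or.inr ⟨hx, hx'⟩)
    _ ≤ μ S' + μ (S \ S') := measure_union_le _ _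
    _ = μ S' := by rw [h1, add_zero]

theorem atoms_countable (μ : Measure ℂ) [SFinite μ] : {x : ℂ | μ {x} ≠ 0}.Countable := by
  have h := Measure.countable_meas_pos_of_disjoint_iUnion (μ := μ) (As := fun x : ℂ => {x})
    (fun x => measurableSet_singleton x) (by
      intro x y hxy
      exact Set.disjoint_singleton.2 hxy)
  refine h.mono ?_
  intro x hx
  exact pos_iff_ne_zero.2 hx

theorem meas_measure {m : ℕ} {X : Set (Fin (m + 1) → ℂ)} (hXm : MeasurableSet X)
    (μ : Measure ℂ) [SFinite μ] (r : ℝ≥0∞) : MeasurableSet {s | r < μ (Sec X s)} := by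
  have hW : MeasurableSet {p : (Fin m → ℂ) × ℂ |
      (Fin.snoc (α := fun _ => ℂ) p.1 p.2 : Fin (m + 1) → ℂ) ∈ X} := measurable_snoc hXm
  have h1 : Measurable (fun s : Fin m → ℂ => μ (Sec X s)) := measurable_measure_prodMk_left hW
  exact measurableSet_lt measurable_const h1

/-- exceptional set of a set which is countable or cocountable in `U` -/
theorem QmOn.const {U S : Set ℂ} (h : QmOn U S) :
    ∃ B : Set ℂ, B.Countable ∧ ∀ t ∈ U, t ∉ B → ∀ t' ∈ U, t' ∉ B → (t ∈ S ↔ t' ∈ S) := by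
  rcases h with h | h
  · refine ⟨_, h, fun t ht htB t' ht' htB' => ?_⟩
    exact ⟨fun h1 => absurd ⟨ht, h1⟩ htB, fun h1 => absurd ⟨ht', h1⟩ htB'⟩
  · refine ⟨_, h, fun t ht htB t' ht' htB' => ?_⟩
    have h1 : t ∈ S := by
      by_contra h1
      exact htB ⟨ht, h1⟩
    have h2 : t' ∈ S := by
      by_contra h1
      exact htB' ⟨ht', h1⟩
    exact ⟨fun _ => h2, fun _ => h1⟩

theorem QmOn.of_const {U S B : Set ℂ} (hB : B.Countable)
    (h : ∀ t ∈ U, t ∉ B → ∀ t' ∈ U, t' ∉ B → t ∈ S → t' ∈ S) : QmOn U S := by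
  by_cases h1 : ∃ t ∈ U, t ∉ B ∧ t ∈ S
  · obtain ⟨t, ht, htB, htS⟩ := h1
    right
    refine hB.mono ?_
    intro t' ht'
    by_contra hB'
    exact ht'.2 (h t ht htB t' ht'.1 hB' htS)
  · push Not at h1
    left
    refine hB.mono ?_
    intro t ht
    by_contra hB'
    exact h1 t ht.1 hB' ht.2

theorem CQ_measure {m : ℕ} {X : Set (Fin (m + 1) → ℂ)} (hX : CQ (m + 1) X)
    (hXm : MeasurableSet X) (μ : Measure ℂ) [SFinite μ] (r : ℝ≥0∞) :
    CQ m {s | r < μ (Sec X s)} := by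
  intro U hU hUc γ hγ
  have h1 := fun x : ℂ => QmOn.const (hX U hU hUc
    (fun t => (Fin.snoc (α := fun _ => ℂ) (γ t) x : Fin (m + 1) → ℂ))
    (analytic_snoc hγ analyticOnNhd_const))
  choose B hB hBx using h1
  obtain ⟨B', hB', h2⟩ := QmOn.const (CQ_unc hX hXm U hU hUc γ hγ)
  refine QmOn.of_const (B := B' ∪ ⋃ x ∈ {x : ℂ | μ {x} ≠ 0}, B x)
    (hB'.union ((atoms_countable μ).biUnion fun x _ => hB x)) ?_
  intro t ht htB t' ht' htB' htS
  have ht1 : t ∉ B' := fun h => htB (Or.inl h)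
  have ht1' : t' ∉ B' := fun h => htB' (Or.inl h)
  have e1 : ∀ x, μ {x} ≠ 0 → (x ∈ Sec X (γ t) → x ∈ Sec X (γ t')) := by
    intro x hx hxt
    exact (hBx x t ht (fun h => htB (Or.inr (mem_biUnion (show x ∈ {x : ℂ | μ {x} ≠ 0} from hx) h)))
      t' ht' (fun h => htB' (Or.inr (mem_biUnion (show x ∈ {x : ℂ | μ {x} ≠ 0} from hx) h)))).1 hxt
  have e2 : ¬ (Sec X (γ t)).Countable ↔ ¬ (Sec X (γ t')).Countable := h2 t ht ht1 t' ht' ht1'
  have e3 : (Sec X (γ t) \ Sec X (γ t')).Countable := by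
    rcases Sec_qm hX (γ t') with h | h
    · have h3 : (Sec X (γ t)).Countable := by
        by_contra h3
        exact e2.1 h3 h
      exact h3.mono sdiff_subset
    · exact h.mono fun x hx => hx.2
  exact lt_of_lt_of_le htS (measure_le e3 e1)

theorem card_iff {m : ℕ} {X : Set (Fin (m + 1) → ℂ)} (hX : CQ (m + 1) X) {κ : Cardinal.{0}}
    (hκ : ℵ₀ < κ) (s : Fin m → ℂ) :
    κ ≤ #(Sec X s) ↔ (κ ≤ #ℂ ∧ ¬ (Sec X s).Countable) := by
  constructor
  · intro h
    refine ⟨h.trans (Cardinal.mk_set_le _), fun hc => ?_⟩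
    exact absurd (h.trans (Cardinal.le_aleph0_iff_set_countable.2 hc)) (not_le.2 hκ)
  · rintro ⟨h1, h2⟩
    rcases Sec_qm hX s with h | h
    · exact absurd h h2
    · have h3 : #((Sec X s)ᶜ : Set ℂ) < #ℂ := by
        refine lt_of_le_of_lt (Cardinal.le_aleph0_iff_set_countable.2 h) ?_
        rw [Cardinal.mk_complex]
        exact Cardinal.aleph0_lt_continuum
      have h4 := Cardinal.mk_compl_of_infinite _ h3
      rw [compl_compl] at h4
      rw [h4]
      exact h1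

theorem CQ_card {m : ℕ} {X : Set (Fin (m + 1) → ℂ)} (hX : CQ (m + 1) X)
    (hXm : MeasurableSet X) {κ : Cardinal.{0}} (hκ : ℵ₀ < κ) :
    CQ m {s | κ ≤ #(Sec X s)} ∧ MeasurableSet {s | κ ≤ #(Sec X s)} := by
  by_cases h : κ ≤ #ℂ
  · have : {s | κ ≤ #(Sec X s)} = {s | ¬ (Sec X s).Countable} := by
      ext s
      exact (card_iff hX hκ s).trans ⟨fun h' => h'.2, fun h' => ⟨h, h'⟩⟩
    rw [this]
    exact ⟨CQ_unc hX hXm, meas_unc hX hXm⟩
  · have : {s | κ ≤ #(Sec X s)} = (∅ : Set (Fin m → ℂ)) := by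
      ext s
      exact (card_iff hX hκ s).trans
        ⟨fun h' => absurd h'.1 h, fun h' => absurd h' (Set.notMem_empty _)⟩
    rw [this]
    refine ⟨?_, MeasurableSet.empty⟩
    intro U _ _ γ _
    left
    simp

end Pool.Agent.Y566.GQ
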