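import Pool.Agent.Y566.GQ.Sys
import Pool.Agent.Y566.GQ.Msr

/-!
Counting the solutions of one admissible equation is a Borel operation.
-/

set_option autoImplicit false

namespace Pool.Agent.Y566.GQ

open Set Filter Topology Metric MeasureTheory Cardinal
open Pool.Agent.TH735.QM Pool.Agent.TH735.FO

theorem const_tuple {m : ℕ} (p : (Fin m → ℂ) × ℂ) :
    AnalyticAt ℂ (fun p : (Fin m → ℂ) × ℂ => (fun _ => p.2 : Fin 1 → ℂ)) p :=
  analyticAt_pi_iff.2 fun _ => analyticAt_snd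

theorem Adm_joint {m : ℕ} {F : (Fin m → ℂ) → (Fin 1 → ℂ) → ℂ} (hF : Adm m 1 F) :
    AnalyticOnNhd ℂ (fun p : (Fin m → ℂ) × ℂ => F p.1 (fun _ => p.2)) univ := by
  intro p _
  induction hF with
  | left f hf =>
    exact (hf p.1 (mem_univ _)).comp (f := fun p : (Fin m → ℂ) × ℂ => p.1) (x := p)
      analyticAt_fst
  | right g hg =>
    exact (hg (fun _ => p.2) (mem_univ _)).comp
      (f := fun p : (Fin m → ℂ) × ℂ => (fun _ => p.2 : Fin 1 → ℂ)) (x := p) (const_tuple p)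
  | exp h hh =>
    have h1 : AnalyticAt ℂ (fun p : (Fin m → ℂ) × ℂ => (p.1, (fun _ => p.2 : Fin 1 → ℂ))) p :=
      analyticAt_fst.prod (const_tuple p)
    exact ((hh (p.1, fun _ => p.2) (mem_univ _)).comp
      (f := fun p : (Fin m → ℂ) × ℂ => (p.1, (fun _ => p.2 : Fin 1 → ℂ))) (x := p) h1).cexp
  | add F G _ _ ih1 ih2 => exact ih1.add ih2
  | mul F G _ _ ih1 ih2 => exact ih1.mul ih2

theorem meas_count_one {m d : ℕ} {a : Fin (d + 1) → (Fin m → ℂ) → ℂ}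
    (ha : ∀ j, AnalyticOnNhd ℂ (a j) univ) {X : Set (Fin (m + 1) → ℂ)} (hX : MeasurableSet X)
    {F : (Fin m → ℂ) → (Fin 1 → ℂ) → ℂ} (hF : Adm m 1 F)
    {P : Set (Fin m → ℂ) → Prop} {Q : Set (Fin 1 → ℂ) → Prop}
    (hP : ∀ E, P E → MeasurableSet E) (hQ : ∀ D, Q D → CQ 1 D ∧ MeasurableSet D)
    {R₀ R₁ : Set ((Fin m → ℂ) × (Fin 1 → ℂ))} (hR₀ : Rect P Q R₀) (hR₁ : Rect P Q R₁)
    (κ : Cardinal.{0}) :
    MeasurableSet {s | κ ≤ #({z : ℂ | (IsAlg a s z ∧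
      (Fin.snoc (α := fun _ => ℂ) s z : Fin (m + 1) → ℂ) ∈ X) ∨
      (¬ IsAlg a s z ∧ ((F s (fun _ => z) = 0 ∧ (s, fun _ => z) ∈ R₁) ∨
        (F s (fun _ => z) ≠ 0 ∧ (s, fun _ => z) ∈ R₀)))} : Set ℂ)} := by
  classical
  have h := meas_multi (G := fun s z => ∑ j, a j s * z ^ (j : ℕ)) (analytic_alg ha) hX
    (n := 1) (F := fun _ s z => F s (fun _ => z)) (fun _ => Adm_joint hF) hP hQ
    (R := fun Z => if (0 : Fin 1) ∈ Z then R₁ else R₀) (by
      intro Z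
      split_ifs
      · exact hR₁
      · exact hR₀) κ
  convert h using 6 with s
  ext z
  simp only [Set.mem_ofPred_eq, isAlg_iff]
  refine or_congr Iff.rfl (and_congr Iff.rfl ?_)
  by_cases h0 : F s (fun _ => z) = 0
  · simp [h0]
  · simp [h0]

end Pool.Agent.Y566.GQ
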