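import Pool.Agent.Y566.GQ.Cnt
import Pool.Agent.TH735.QM.Closure

/-!
Counting the solutions of several equations is a Borel operation.
-/

set_option autoImplicit false

namespace Pool.Agent.Y566.GQ

open Set Filter Topology Metric MeasureTheory Cardinal
open Pool.Agent.TH735.QM Pool.Agent.TH735.FO

theorem meas_multi {m n : ℕ} {G : (Fin m → ℂ) → ℂ → ℂ}
    (hG : AnalyticOnNhd ℂ (fun p : (Fin m → ℂ) × ℂ => G p.1 p.2) univ)
    {X : Set (Fin (m + 1) → ℂ)} (hX : MeasurableSet X)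
    {F : Fin n → (Fin m → ℂ) → ℂ → ℂ}
    (hF : ∀ j, AnalyticOnNhd ℂ (fun p : (Fin m → ℂ) × ℂ => F j p.1 p.2) univ)
    {P : Set (Fin m → ℂ) → Prop} {Q : Set (Fin 1 → ℂ) → Prop}
    (hP : ∀ E, P E → MeasurableSet E) (hQ : ∀ D, Q D → CQ 1 D ∧ MeasurableSet D)
    {R : Set (Fin n) → Set ((Fin m → ℂ) × (Fin 1 → ℂ))} (hR : ∀ Z, Rect P Q (R Z))
    (κ : Cardinal.{0}) :
    MeasurableSet {s | κ ≤ #({x : ℂ | (IsZero G s x ∧
      (Fin.snoc (α := fun _ => ℂ) s x : Fin (m + 1) → ℂ) ∈ X) ∨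
      (¬ IsZero G s x ∧ (s, fun _ => x) ∈ R {j | F j s x = 0})} : Set ℂ)} := by
  classical
  obtain ⟨hZm, A, g, hA, hg, hAg⟩ := zeros_enum hG
  choose hZFm AF gF hAF hgF hAgF using fun j => zeros_enum (hF j)
  choose hRm C0 hC0 E hE hRE using fun Z => rect_split hP hQ (hR Z)
  have hcnt : Countable (Set (Fin n)) := Finite.to_countable
  obtain ⟨c, hc⟩ := Set.countable_iff_exists_subset_range.1 (countable_iUnion hC0)
  have hFm : ∀ j, MeasurableSet {p : (Fin m → ℂ) × ℂ | F j p.1 p.2 = 0} := fun j =>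
    (isClosed_eq (continuousOn_univ.1 (hF j).continuousOn) continuous_const).measurableSet
  have hOm : ∀ j, MeasurableSet {s : Fin m → ℂ | ∃ x', F j s x' ≠ 0} := by
    intro j
    have : {s : Fin m → ℂ | ∃ x', F j s x' ≠ 0} =
        Prod.fst '' {p : (Fin m → ℂ) × ℂ | F j p.1 p.2 ≠ 0} := by
      ext s
      constructor
      · rintro ⟨x, hx⟩
        exact ⟨(s, x), hx, rfl⟩
      · rintro ⟨⟨s', x⟩, hx, rfl⟩
        exact ⟨x, hx⟩
    rw [this]
    exact (isOpenMap_fst _ (isOpen_ne_fun (continuousOn_univ.1 (hF j).continuousOn)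
      continuous_const)).measurableSet
  -- the set of the indices of the functions which vanish identically
  set J : (Fin m → ℂ) → Set (Fin n) := fun s => {j | ∀ x, F j s x = 0} with hJ
  have hJm : ∀ Z : Set (Fin n), MeasurableSet {s | J s = Z} := by
    intro Z
    have : {s | J s = Z} = ⋂ j, (if j ∈ Z then {s : Fin m → ℂ | ∃ x', F j s x' ≠ 0}ᶜ else
        {s : Fin m → ℂ | ∃ x', F j s x' ≠ 0}) := by
      ext s
      simp only [Set.mem_ofPred_eq, mem_iInter]
      constructor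
      · intro h j
        split_ifs with hj
        · rw [← h] at hj
          rintro ⟨x, hx⟩
          exact hx (hj x)
        · rw [← h] at hj
          by_contra hcon
          apply hj
          intro x
          by_contra hx
          exact hcon ⟨x, hx⟩
      · intro h
        ext j
        have hj := h j
        split_ifs at hj with hjZ
        · refine ⟨fun _ => hjZ, fun _ x => ?_⟩
          by_contra hx
          exact hj ⟨x, hx⟩
        · refine ⟨fun h1 => ?_, fun h1 => absurd h1 hjZ⟩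
          obtain ⟨x, hx⟩ := hj
          exact absurd (h1 x) hx
    rw [this]
    refine MeasurableSet.iInter fun j => ?_
    split_ifs
    · exact (hOm j).compl
    · exact hOm j
  have hpat : ∀ Z : Set (Fin n),
      MeasurableSet {p : (Fin m → ℂ) × ℂ | {j | F j p.1 p.2 = 0} = Z} := by
    intro Z
    have : {p : (Fin m → ℂ) × ℂ | {j | F j p.1 p.2 = 0} = Z} =
        ⋂ j, (if j ∈ Z then {p : (Fin m → ℂ) × ℂ | F j p.1 p.2 = 0} else
        {p : (Fin m → ℂ) × ℂ | F j p.1 p.2 = 0}ᶜ) := by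
      ext p
      simp only [Set.mem_ofPred_eq, mem_iInter]
      constructor
      · intro h j
        split_ifs with hj
        · rw [← h] at hj
          exact hj
        · rw [← h] at hj
          exact hj
      · intro h
        ext j
        have hj := h j
        split_ifs at hj with hjZ
        · exact ⟨fun _ => hjZ, fun _ => hj⟩
        · exact ⟨fun h1 => absurd h1 hj, fun h1 => absurd h1 hjZ⟩
    rw [this]
    refine MeasurableSet.iInter fun j => ?_
    split_ifs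
    · exact hFm j
    · exact (hFm j).compl
  set W : Set ((Fin m → ℂ) × ℂ) := {p | (IsZero G p.1 p.2 ∧
      (Fin.snoc (α := fun _ => ℂ) p.1 p.2 : Fin (m + 1) → ℂ) ∈ X) ∨
      (¬ IsZero G p.1 p.2 ∧ (p.1, fun _ => p.2) ∈ R {j | F j p.1 p.2 = 0})} with hWdef
  have hW : MeasurableSet W := by
    have h1 : MeasurableSet {p : (Fin m → ℂ) × ℂ |
        (p.1, fun _ => p.2) ∈ R {j | F j p.1 p.2 = 0}} := by
      have : {p : (Fin m → ℂ) × ℂ | (p.1, fun _ => p.2) ∈ R {j | F j p.1 p.2 = 0}} =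
          ⋃ Z : Set (Fin n), ({p : (Fin m → ℂ) × ℂ | {j | F j p.1 p.2 = 0} = Z} ∩
            {p : (Fin m → ℂ) × ℂ | (p.1, fun _ => p.2) ∈ R Z}) := by
        ext p
        simp only [Set.mem_ofPred_eq, mem_iUnion, mem_inter_iff]
        constructor
        · intro h
          exact ⟨_, rfl, h⟩
        · rintro ⟨Z, hZ, h⟩
          rw [hZ]
          exact h
      rw [this]
      exact MeasurableSet.iUnion fun Z => (hpat Z).inter (hRm Z)
    exact (hZm.inter (measurable_snoc hX)).union (hZm.compl.inter h1)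
  let A' : (ℕ ⊕ (Fin n × ℕ)) ⊕ ℕ → Set (Fin m → ℂ) :=
    Sum.elim (Sum.elim A (fun q => AF q.1 q.2)) (fun _ => univ)
  let g' : (ℕ ⊕ (Fin n × ℕ)) ⊕ ℕ → (Fin m → ℂ) → ℂ :=
    Sum.elim (Sum.elim g (fun q => gF q.1 q.2)) (fun j _ => c j)
  have hA' : ∀ i, MeasurableSet (A' i) := by
    rintro ((j | j) | j)
    · exact hA j
    · exact hAF j.1 j.2
    · exact MeasurableSet.univ
  have hg' : ∀ i, Measurable (g' i) := by
    rintro ((j | j) | j)
    · exact hg j
    · exact hgF j.1 j.2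
    · exact measurable_const
  -- the generic part
  set EE : Set (Fin m → ℂ) := ⋃ Z : Set (Fin n), ({s | J s = Z} ∩ E Z) with hEE
  have hEEm : MeasurableSet EE := MeasurableSet.iUnion fun Z => (hJm Z).inter (hE Z)
  have hEEmem : ∀ s, s ∈ EE ↔ s ∈ E (J s) := by
    intro s
    rw [hEE]
    simp only [mem_iUnion, mem_inter_iff, Set.mem_ofPred_eq]
    constructor
    · rintro ⟨Z, hZ, h⟩
      rw [hZ]
      exact h
    · intro h
      exact ⟨_, rfl, h⟩
  have hgen : ∀ s x, x ∉ ⋃ Z, C0 Z → (∀ j, ¬ IsZero (F j) s x) →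
      ((s, fun _ => x) ∈ R {j | F j s x = 0} ↔ s ∈ EE) := by
    intro s x hx hz
    have h1 : {j | F j s x = 0} = J s := by
      ext j
      constructor
      · intro h x'
        by_contra hx'
        exact hz j ⟨⟨x', hx'⟩, h⟩
      · intro h
        exact h x
    rw [h1, hEEmem]
    exact hRE (J s) s x (fun h => hx (mem_iUnion.2 ⟨_, h⟩))
  have hS1 : ∀ s, s ∉ EE → {x : ℂ | (IsZero G s x ∧
      (Fin.snoc (α := fun _ => ℂ) s x : Fin (m + 1) → ℂ) ∈ X) ∨
      (¬ IsZero G s x ∧ (s, fun _ => x) ∈ R {j | F j s x = 0})} = Pts W A' g' s := by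
    intro s hs
    ext x
    constructor
    · intro h
      refine ⟨?_, h⟩
      rcases h with h | h
      · obtain ⟨j, h1, h2⟩ := (hAg s x).1 h.1
        exact ⟨Sum.inl (Sum.inl j), h1, h2⟩
      · by_cases hz : ∀ j, ¬ IsZero (F j) s x
        · have hx : x ∈ ⋃ Z, C0 Z := by
            by_contra hx
            exact hs ((hgen s x hx hz).1 h.2)
          obtain ⟨j, hj⟩ := hc hx
          exact ⟨Sum.inr j, mem_univ _, hj⟩
        · push Not at hz
          obtain ⟨j, hj⟩ := hz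
          obtain ⟨i, h1, h2⟩ := (hAgF j s x).1 hj
          exact ⟨Sum.inl (Sum.inr (j, i)), h1, h2⟩
    · rintro ⟨-, h⟩
      exact h
  have hS2 : ∀ s, s ∈ EE → #({x : ℂ | (IsZero G s x ∧
      (Fin.snoc (α := fun _ => ℂ) s x : Fin (m + 1) → ℂ) ∈ X) ∨
      (¬ IsZero G s x ∧ (s, fun _ => x) ∈ R {j | F j s x = 0})} : Set ℂ) = #ℂ := by
    intro s hs
    have h0 : {x | IsZero G s x}.Countable := by
      refine (countable_range (fun j => g j s)).mono ?_
      intro x hx
      obtain ⟨j, -, h2⟩ := (hAg s x).1 hx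
      exact ⟨j, h2⟩
    have h0' : (⋃ j, {x | IsZero (F j) s x}).Countable := by
      refine countable_iUnion fun j => (countable_range (fun i => gF j i s)).mono ?_
      intro x hx
      obtain ⟨i, -, h2⟩ := (hAgF j s x).1 hx
      exact ⟨i, h2⟩
    have h1 : ({x : ℂ | (IsZero G s x ∧
        (Fin.snoc (α := fun _ => ℂ) s x : Fin (m + 1) → ℂ) ∈ X) ∨
        (¬ IsZero G s x ∧ (s, fun _ => x) ∈ R {j | F j s x = 0})} : Set ℂ)ᶜ.Countable := by
      refine ((h0.union h0').union (countable_iUnion hC0)).mono ?_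
      intro x hx
      by_cases h2 : IsZero G s x
      · exact Or.inl (Or.inl h2)
      by_cases h3 : ∀ j, ¬ IsZero (F j) s x
      · right
        by_contra h4
        exact hx (Or.inr ⟨h2, (hgen s x h4 h3).2 hs⟩)
      · push Not at h3
        obtain ⟨j, hj⟩ := h3
        exact Or.inl (Or.inr (mem_iUnion.2 ⟨j, hj⟩))
    have h2 : #(({x : ℂ | (IsZero G s x ∧
        (Fin.snoc (α := fun _ => ℂ) s x : Fin (m + 1) → ℂ) ∈ X) ∨
        (¬ IsZero G s x ∧ (s, fun _ => x) ∈ R {j | F j s x = 0})} : Set ℂ)ᶜ : Set ℂ) < #ℂ := by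
      refine lt_of_le_of_lt (Cardinal.le_aleph0_iff_set_countable.2 h1) ?_
      rw [Cardinal.mk_complex]
      exact Cardinal.aleph0_lt_continuum
    have h3 := Cardinal.mk_compl_of_infinite _ h2
    rwa [compl_compl] at h3
  have hfin : {s | κ ≤ #({x : ℂ | (IsZero G s x ∧
      (Fin.snoc (α := fun _ => ℂ) s x : Fin (m + 1) → ℂ) ∈ X) ∨
      (¬ IsZero G s x ∧ (s, fun _ => x) ∈ R {j | F j s x = 0})} : Set ℂ)} =
      (EE ∩ {_s | κ ≤ #ℂ}) ∪ (EEᶜ ∩ {s | κ ≤ #(Pts W A' g' s)}) := by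
    ext s
    by_cases hs : s ∈ EE
    · simp only [Set.mem_ofPred_eq, Set.mem_union, Set.mem_inter_iff, Set.mem_compl_iff, hs,
        not_true_eq_false, false_and, or_false, true_and]
      rw [hS2 s hs]
    · simp only [Set.mem_ofPred_eq, Set.mem_union, Set.mem_inter_iff, Set.mem_compl_iff, hs,
        not_false_eq_true, false_and, false_or, true_and]
      rw [hS1 s hs]
  rw [hfin]
  exact (hEEm.inter (MeasurableSet.const _)).union (hEEm.compl.inter (meas_card hW hA' hg' κ))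

open Polynomial in
theorem alg_iff {d : ℕ} (a : Fin (d + 1) → ℂ) :
    (∃ j, a j ≠ 0) ↔ ∃ x : ℂ, ∑ j, a j * x ^ (j : ℕ) ≠ 0 := by
  constructor
  · rintro ⟨j, hj⟩
    by_contra hcon
    push Not at hcon
    have hP : (∑ i : Fin (d + 1), C (a i) * X ^ (i : ℕ) : ℂ[X]) = 0 := by
      apply Polynomial.funext
      intro x
      rw [Polynomial.eval_finsetSum]
      simpa using hcon x
    apply hj
    have h1 := congrArg (fun p : ℂ[X] => p.coeff (j : ℕ)) hP
    simp only [Polynomial.finsetSum_coeff, Polynomial.coeff_C_mul, Polynomial.coeff_X_pow,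
      Polynomial.coeff_zero] at h1
    rw [Finset.sum_eq_single j] at h1
    · simpa using h1
    · intro i _ hi
      rw [if_neg (fun h => hi (Fin.ext h.symm)), mul_zero]
    · intro h
      exact absurd (Finset.mem_univ _) h
  · rintro ⟨x, hx⟩
    by_contra hcon
    push Not at hcon
    apply hx
    simp [hcon]

theorem isAlg_iff {m d : ℕ} (a : Fin (d + 1) → (Fin m → ℂ) → ℂ) (s : Fin m → ℂ) (z : ℂ) :
    IsAlg a s z ↔ IsZero (fun s z => ∑ j, a j s * z ^ (j : ℕ)) s z := by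
  unfold IsAlg IsZero
  rw [alg_iff (fun j => a j s)]

theorem analytic_alg {m d : ℕ} {a : Fin (d + 1) → (Fin m → ℂ) → ℂ}
    (ha : ∀ j, AnalyticOnNhd ℂ (a j) univ) :
    AnalyticOnNhd ℂ (fun p : (Fin m → ℂ) × ℂ => ∑ j, a j p.1 * p.2 ^ (j : ℕ)) univ := by
  intro p _
  refine Finset.analyticAt_fun_sum _ fun j _ => ?_
  exact ((ha j p.1 (mem_univ _)).comp (f := fun p : (Fin m → ℂ) × ℂ => p.1) (x := p)
    analyticAt_fst).mul (analyticAt_snd.pow _)

/-- several equations which are polynomial in the unknown and one exponential, counted -/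
theorem meas_system {m d e n : ℕ} {a : Fin (d + 1) → (Fin m → ℂ) → ℂ}
    (ha : ∀ j, AnalyticOnNhd ℂ (a j) univ) {X : Set (Fin (m + 1) → ℂ)} (hX : MeasurableSet X)
    {c : Fin n → Fin (e + 1) → Fin (e + 1) → (Fin m → ℂ) → ℂ}
    (hc : ∀ j i k, AnalyticOnNhd ℂ (c j i k) univ) {h : (Fin m → ℂ) → ℂ → ℂ}
    (hh : AnalyticOnNhd ℂ (fun p : (Fin m → ℂ) × ℂ => h p.1 p.2) univ)
    {P : Set (Fin m → ℂ) → Prop} {Q : Set (Fin 1 → ℂ) → Prop}
    (hP : ∀ E, P E → MeasurableSet E) (hQ : ∀ D, Q D → CQ 1 D ∧ MeasurableSet D)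
    {R : Set (Fin n) → Set ((Fin m → ℂ) × (Fin 1 → ℂ))} (hR : ∀ Z, Rect P Q (R Z))
    (κ : Cardinal.{0}) :
    MeasurableSet {s | κ ≤ #({z : ℂ | (IsAlg a s z ∧
      (Fin.snoc (α := fun _ => ℂ) s z : Fin (m + 1) → ℂ) ∈ X) ∨
      (¬ IsAlg a s z ∧ (s, fun _ => z) ∈
        R {j | ∑ i, ∑ k, c j i k s * z ^ (i : ℕ) * Complex.exp (h s z) ^ (k : ℕ) = 0})} :
        Set ℂ)} := by
  simp only [isAlg_iff]
  refine meas_multi (G := fun s z => ∑ j, a j s * z ^ (j : ℕ)) (analytic_alg ha) hX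
    (F := fun j s z => ∑ i, ∑ k, c j i k s * z ^ (i : ℕ) * Complex.exp (h s z) ^ (k : ℕ))
    (fun j => ?_) hP hQ hR κ
  intro p _
  refine Finset.analyticAt_fun_sum _ fun i _ => Finset.analyticAt_fun_sum _ fun k _ => ?_
  exact (((hc j i k p.1 (mem_univ _)).comp (f := fun p : (Fin m → ℂ) × ℂ => p.1) (x := p)
    analyticAt_fst).mul (analyticAt_snd.pow _)).mul ((hh p (mem_univ _)).cexp.pow _)

end Pool.Agent.Y566.GQ
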